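import Pool.Agent.Work.MP_3e81b4_h44.Kill2

set_option autoImplicit false

/-! # MP_3e81b4_pr: killing lemma KL3 (helper44) -/

namespace Pool.KCol

open Finset

variable {V : Type} [Fintype V] [DecidableEq V]

/-- every transversal of `g` contains the three coordinates of a triple of `M` -/
def Kills3 {τ : ℕ} (g : Fin τ → V × V) (M : Finset (V × V × V)) : Prop :=
  ∀ N : Finset V, Transv g N → ∃ b ∈ M, b.1 ∈ N ∧ b.2.1 ∈ N ∧ b.2.2 ∈ N

/-- planes and lines of `M` -/
def sl (M : Finset (V × V × V)) (v : V) : Finset (V × V) := univ.filter fun q => (v, q.1, q.2) ∈ M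
def pl2 (M : Finset (V × V × V)) (y : V) : Finset (V × V) := univ.filter fun q => (q.1, y, q.2) ∈ M
def pl3 (M : Finset (V × V × V)) (z : V) : Finset (V × V) := univ.filter fun q => (q.1, q.2, z) ∈ M
def l1 (M : Finset (V × V × V)) (y z : V) : Finset V := univ.filter fun v => (v, y, z) ∈ M
def l2 (M : Finset (V × V × V)) (v z : V) : Finset V := univ.filter fun y => (v, y, z) ∈ M
def l3 (M : Finset (V × V × V)) (v y : V) : Finset V := univ.filter fun z => (v, y, z) ∈ M

open scoped Classical in
/-- saturated positions -/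
noncomputable def Sat (U : Finset (V × V)) (d : ℝ) : Finset (V × V) :=
  univ.filter fun q => d ≤ ((rowOf U q.1).card : ℝ) ∨ d ≤ ((colOf U q.2).card : ℝ)

open scoped Classical in
/-- the set of pairs of phase 1 -/
noncomputable def U3 (M : Finset (V × V × V)) (d q1 : ℝ) : List V → Finset (V × V)
  | [] => ∅
  | v :: r => if ((U3 M d q1 r).card : ℝ) < q1 then
      U3 M d q1 r ∪ (sl M v \ Sat (U3 M d q1 r) d) else U3 M d q1 r

open scoped Classical in
/-- the picks of phase 2 -/
noncomputable def W3 (M : Finset (V × V × V)) (d q1 : ℝ) : List V → List V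
  | [] => []
  | v :: r => if ((U3 M d q1 r).card : ℝ) < q1 then W3 M d q1 r else v :: W3 M d q1 r

open scoped Classical in
/-- the strategy of KL3 -/
noncomputable def R3 (M : Finset (V × V × V)) (d q1 k1 k2 q2 : ℝ) (r : List V) : Finset V :=
  if ((U3 M d q1 r).card : ℝ) < q1 then
    univ.filter fun v => k1 ≤ ((sl M v \ (U3 M d q1 r ∪ Sat (U3 M d q1 r) d)).card : ℝ)
  else R2 (U3 M d q1 r) k2 q2 (W3 M d q1 r)

theorem rowOf_union (A B : Finset (V × V)) (y : V) :
    rowOf (A ∪ B) y = rowOf A y ∪ rowOf B y := by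
  ext z
  simp [rowOf]

theorem colOf_union (A B : Finset (V × V)) (y : V) :
    colOf (A ∪ B) y = colOf A y ∪ colOf B y := by
  ext z
  simp [colOf]

theorem U3_row (M : Finset (V × V × V)) (d q1 : ℝ) (hd : 0 ≤ d)
    (hl : ∀ v y, ((l3 M v y).card : ℝ) ≤ d) (r : List V) (y : V) :
    ((rowOf (U3 M d q1 r) y).card : ℝ) ≤ 2 * d := by
  classical
  induction r with
  | nil => simp [U3, rowOf]; exact hd
  | cons v r ih =>
    unfold U3
    split_ifs with h
    · rw [rowOf_union]
      by_cases hs : d ≤ ((rowOf (U3 M d q1 r) y).card : ℝ)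
      · have : rowOf (sl M v \ Sat (U3 M d q1 r) d) y = ∅ := by
          ext z
          simp only [rowOf, mem_filter, mem_univ, true_and, mem_sdiff, Finset.notMem_empty,
            iff_false, not_and, not_not]
          intro _
          exact Finset.mem_filter.2 ⟨mem_univ _, Or.inl hs⟩
        rw [this, Finset.union_empty]
        exact ih
      · have h1 : ((rowOf (U3 M d q1 r) y ∪ rowOf (sl M v \ Sat (U3 M d q1 r) d) y).card : ℝ) ≤
            (rowOf (U3 M d q1 r) y).card + (rowOf (sl M v \ Sat (U3 M d q1 r) d) y).card := by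
          exact_mod_cast Finset.card_union_le _ _
        have h2 : ((rowOf (sl M v \ Sat (U3 M d q1 r) d) y).card : ℝ) ≤ (l3 M v y).card := by
          refine Nat.cast_le.2 (Finset.card_le_card ?_)
          intro z hz
          simp only [rowOf, sl, l3, mem_filter, mem_univ, true_and, mem_sdiff] at hz ⊢
          exact hz.1
        have := hl v y
        linarith [not_le.1 hs]
    · exact ih

theorem U3_col (M : Finset (V × V × V)) (d q1 : ℝ) (hd : 0 ≤ d)
    (hl : ∀ v z, ((l2 M v z).card : ℝ) ≤ d) (r : List V) (z : V) :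
    ((colOf (U3 M d q1 r) z).card : ℝ) ≤ 2 * d := by
  classical
  induction r with
  | nil => simp [U3, colOf]; exact hd
  | cons v r ih =>
    unfold U3
    split_ifs with h
    · rw [colOf_union]
      by_cases hs : d ≤ ((colOf (U3 M d q1 r) z).card : ℝ)
      · have : colOf (sl M v \ Sat (U3 M d q1 r) d) z = ∅ := by
          ext y
          simp only [colOf, mem_filter, mem_univ, true_and, mem_sdiff, Finset.notMem_empty,
            iff_false, not_and, not_not]
          intro _
          exact Finset.mem_filter.2 ⟨mem_univ _, Or.inr hs⟩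
        rw [this, Finset.union_empty]
        exact ih
      · have h1 : ((colOf (U3 M d q1 r) z ∪ colOf (sl M v \ Sat (U3 M d q1 r) d) z).card : ℝ) ≤
            (colOf (U3 M d q1 r) z).card + (colOf (sl M v \ Sat (U3 M d q1 r) d) z).card := by
          exact_mod_cast Finset.card_union_le _ _
        have h2 : ((colOf (sl M v \ Sat (U3 M d q1 r) d) z).card : ℝ) ≤ (l2 M v z).card := by
          refine Nat.cast_le.2 (Finset.card_le_card ?_)
          intro y hy
          simp only [colOf, sl, l2, mem_filter, mem_univ, true_and, mem_sdiff] at hy ⊢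
          exact hy.1
        have := hl v z
        linarith [not_le.1 hs]
    · exact ih

theorem U3_small (M : Finset (V × V × V)) (d q1 k1 k2 q2 : ℝ) (r : List V)
    (hr : Legal (R3 M d q1 k1 k2 q2) r) (h : ((U3 M d q1 r).card : ℝ) < q1) :
    W3 M d q1 r = [] ∧ (r.length : ℝ) * k1 ≤ ((U3 M d q1 r).card : ℝ) := by
  classical
  induction r with
  | nil => exact ⟨rfl, by simp⟩
  | cons v r ih =>
    by_cases hc : ((U3 M d q1 r).card : ℝ) < q1
    · obtain ⟨h1, h2⟩ := ih hr.1 hc
      have hv := hr.2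
      unfold R3 at hv
      rw [if_pos hc] at hv
      have hv' := (Finset.mem_filter.1 hv).2
      refine ⟨?_, ?_⟩
      · unfold W3; rw [if_pos hc]; exact h1
      · have e : U3 M d q1 (v :: r) =
            U3 M d q1 r ∪ (sl M v \ Sat (U3 M d q1 r) d) := by
          rw [U3, if_pos hc]
        have e2 : ((U3 M d q1 (v :: r)).card : ℝ) ≥ (U3 M d q1 r).card +
            ((sl M v \ (U3 M d q1 r ∪ Sat (U3 M d q1 r) d)).card : ℝ) := by
          rw [e]
          have hdis : Disjoint (U3 M d q1 r) (sl M v \ (U3 M d q1 r ∪ Sat (U3 M d q1 r) d)) := by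
            rw [Finset.disjoint_left]
            intro x hx hx'
            exact (Finset.mem_sdiff.1 hx').2 (Finset.mem_union_left _ hx)
          have hsub : U3 M d q1 r ∪ (sl M v \ (U3 M d q1 r ∪ Sat (U3 M d q1 r) d)) ⊆
              U3 M d q1 r ∪ (sl M v \ Sat (U3 M d q1 r) d) := by
            intro x hx
            rcases Finset.mem_union.1 hx with hx | hx
            · exact Finset.mem_union_left _ hx
            · refine Finset.mem_union_right _ ?_
              have hx' := Finset.mem_sdiff.1 hx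
              exact Finset.mem_sdiff.2 ⟨hx'.1, fun hh => hx'.2 (Finset.mem_union_right _ hh)⟩
          have := Finset.card_le_card hsub
          rw [Finset.card_union_of_disjoint hdis] at this
          exact_mod_cast this
        push_cast [List.length_cons]
        linarith
    · exfalso
      apply hc
      have e : U3 M d q1 (v :: r) = U3 M d q1 r := by rw [U3, if_neg hc]
      rw [e] at h
      exact h

theorem W3_len (M : Finset (V × V × V)) (d q1 k1 k2 q2 : ℝ) (hk1 : 0 < k1) (a : ℕ)
    (ha : q1 ≤ a * k1) (r : List V)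
    (hr : Legal (R3 M d q1 k1 k2 q2) r) : r.length ≤ a + (W3 M d q1 r).length := by
  classical
  induction r with
  | nil => simp
  | cons v r ih =>
    by_cases hc : ((U3 M d q1 r).card : ℝ) < q1
    · obtain ⟨h1, h2⟩ := U3_small M d q1 k1 k2 q2 r hr.1 hc
      have h3 : (r.length : ℝ) * k1 < a * k1 := by linarith
      have h4 : (r.length : ℝ) < a := lt_of_mul_lt_mul_right h3 hk1.le
      have h5 : r.length < a := by exact_mod_cast h4
      simp only [List.length_cons]; omega
    · have h1 := ih hr.1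
      have e : W3 M d q1 (v :: r) = v :: W3 M d q1 r := by rw [W3, if_neg hc]
      rw [e]
      simp only [List.length_cons]; omega

theorem W3_legal (M : Finset (V × V × V)) (d q1 k1 k2 q2 : ℝ) (r : List V)
    (hr : Legal (R3 M d q1 k1 k2 q2) r) : Legal (R2 (U3 M d q1 r) k2 q2) (W3 M d q1 r) := by
  classical
  induction r with
  | nil => trivial
  | cons v r ih =>
    by_cases hc : ((U3 M d q1 r).card : ℝ) < q1
    · have e : W3 M d q1 (v :: r) = W3 M d q1 r := by rw [W3, if_pos hc]
      rw [e, (U3_small M d q1 k1 k2 q2 r hr.1 hc).1]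
      trivial
    · have e : W3 M d q1 (v :: r) = v :: W3 M d q1 r := by rw [W3, if_neg hc]
      have e' : U3 M d q1 (v :: r) = U3 M d q1 r := by rw [U3, if_neg hc]
      rw [e, e']
      refine ⟨ih hr.1, ?_⟩
      have hv := hr.2
      unfold R3 at hv
      rw [if_neg hc] at hv
      exact hv

theorem W3_mem (M : Finset (V × V × V)) (d q1 : ℝ) (r : List V) (s : V)
    (hs : s ∈ W3 M d q1 r) : s ∈ r := by
  classical
  induction r with
  | nil => simp [W3] at hs
  | cons v r ih =>
    unfold W3 at hs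
    split_ifs at hs with hc
    · exact List.mem_cons_of_mem _ (ih hs)
    · rcases List.mem_cons.1 hs with h | h
      · rw [h]; exact List.mem_cons_self ..
      · exact List.mem_cons_of_mem _ (ih h)

theorem U3_mem (M : Finset (V × V × V)) (d q1 : ℝ) (r : List V) (q : V × V)
    (hq : q ∈ U3 M d q1 r) : ∃ v ∈ r, (v, q.1, q.2) ∈ M := by
  classical
  induction r with
  | nil => simp [U3] at hq
  | cons v r ih =>
    unfold U3 at hq
    split_ifs at hq with hc
    · rcases Finset.mem_union.1 hq with h | h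
      · obtain ⟨w, hw, h'⟩ := ih h
        exact ⟨w, List.mem_cons_of_mem _ hw, h'⟩
      · exact ⟨v, List.mem_cons_self .., (Finset.mem_filter.1 (Finset.mem_sdiff.1 h).1).2⟩
    · obtain ⟨w, hw, h'⟩ := ih hq
      exact ⟨w, List.mem_cons_of_mem _ hw, h'⟩

/-- indicator -/
noncomputable def ind (M : Finset (V × V × V)) (v y z : V) : ℝ := if (v, y, z) ∈ M then 1 else 0

omit [Fintype V] in
theorem ind_nonneg (M : Finset (V × V × V)) (v y z : V) : 0 ≤ ind M v y z := by
  unfold ind; split_ifs <;> norm_num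

theorem card_sl_filter (M : Finset (V × V × V)) (v : V) (P : V × V → Prop) [DecidablePred P] :
    (((sl M v).filter P).card : ℝ) = ∑ y, ∑ z, if P (y, z) then ind M v y z else 0 := by
  rw [← Fintype.sum_prod_type' (f := fun y z => if P (y, z) then ind M v y z else 0)]
  rw [Finset.card_filter, sl, Finset.sum_filter]
  push_cast
  refine Finset.sum_congr rfl fun q _ => ?_
  unfold ind
  by_cases h1 : (v, q.1, q.2) ∈ M <;> by_cases h2 : P q <;> simp [h1, h2]

theorem card_pl2 (M : Finset (V × V × V)) (y : V) :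
    ((pl2 M y).card : ℝ) = ∑ v, ∑ z, ind M v y z := by
  rw [← Fintype.sum_prod_type' (f := fun v z => ind M v y z)]
  rw [pl2, Finset.card_filter]
  push_cast
  rfl

theorem card_pl3 (M : Finset (V × V × V)) (z : V) :
    ((pl3 M z).card : ℝ) = ∑ v, ∑ y, ind M v y z := by
  rw [← Fintype.sum_prod_type' (f := fun v y => ind M v y z)]
  rw [pl3, Finset.card_filter]
  push_cast
  rfl

theorem card_l1 (M : Finset (V × V × V)) (y z : V) :
    ((l1 M y z).card : ℝ) = ∑ v, ind M v y z := by
  rw [l1, Finset.card_filter]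
  push_cast
  rfl

theorem card_M (M : Finset (V × V × V)) :
    (M.card : ℝ) = ∑ v, ∑ y, ∑ z, ind M v y z := by
  have h : (M.card : ℝ) = ∑ x : V × V × V, ind M x.1 x.2.1 x.2.2 := by
    have : M = univ.filter fun x => x ∈ M := by ext x; simp
    conv_lhs => rw [this, Finset.card_filter]
    push_cast
    rfl
  rw [h, Fintype.sum_prod_type]
  refine Finset.sum_congr rfl fun v _ => ?_
  rw [Fintype.sum_prod_type]

theorem sumA (M : Finset (V × V × V)) (U : Finset (V × V)) (L : ℝ)
    (h : ∀ y z, ((l1 M y z).card : ℝ) ≤ L) :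
    ∑ v, (((sl M v).filter fun q => q ∈ U).card : ℝ) ≤ U.card * L := by
  simp only [card_sl_filter]
  rw [Finset.sum_comm]
  have h1 : ∀ y, (∑ v, ∑ z, if (y, z) ∈ U then ind M v y z else 0) ≤
      ∑ z, if (y, z) ∈ U then L else 0 := by
    intro y
    rw [Finset.sum_comm]
    refine Finset.sum_le_sum fun z _ => ?_
    split_ifs with hU
    · rw [← card_l1]; exact h y z
    · simp
  refine (Finset.sum_le_sum fun y _ => h1 y).trans (le_of_eq ?_)
  rw [← Fintype.sum_prod_type' (f := fun y z => if (y, z) ∈ U then L else 0)]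
  have : (∑ x : V × V, if (x.1, x.2) ∈ U then L else 0) = ∑ x : V × V, if x ∈ U then L else 0 := rfl
  rw [this, Finset.sum_ite_mem, Finset.univ_inter, Finset.sum_const, nsmul_eq_mul]

theorem sumB (M : Finset (V × V × V)) (R : Finset V) (K : ℝ)
    (h : ∀ y, ((pl2 M y).card : ℝ) ≤ K) :
    ∑ v, (((sl M v).filter fun q => q.1 ∈ R).card : ℝ) ≤ R.card * K := by
  simp only [card_sl_filter]
  rw [Finset.sum_comm]
  have h1 : ∀ y, (∑ v, ∑ z, if y ∈ R then ind M v y z else 0) ≤ if y ∈ R then K else 0 := by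
    intro y
    split_ifs with hU
    · rw [← card_pl2]; exact h y
    · simp
  refine (Finset.sum_le_sum fun y _ => h1 y).trans (le_of_eq ?_)
  rw [Finset.sum_ite_mem, Finset.univ_inter, Finset.sum_const, nsmul_eq_mul]

theorem sumC (M : Finset (V × V × V)) (R : Finset V) (K : ℝ)
    (h : ∀ z, ((pl3 M z).card : ℝ) ≤ K) :
    ∑ v, (((sl M v).filter fun q => q.2 ∈ R).card : ℝ) ≤ R.card * K := by
  simp only [card_sl_filter]
  have h0 : (∑ v, ∑ y, ∑ z, if z ∈ R then ind M v y z else 0) =
      ∑ z, ∑ v, ∑ y, if z ∈ R then ind M v y z else 0 := by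
    calc (∑ v, ∑ y, ∑ z, if z ∈ R then ind M v y z else 0)
        = ∑ v, ∑ z, ∑ y, if z ∈ R then ind M v y z else 0 :=
          Finset.sum_congr rfl fun v _ => Finset.sum_comm
      _ = ∑ z, ∑ v, ∑ y, if z ∈ R then ind M v y z else 0 := Finset.sum_comm
  rw [h0]
  have h1 : ∀ z, (∑ v, ∑ y, if z ∈ R then ind M v y z else 0) ≤ if z ∈ R then K else 0 := by
    intro z
    split_ifs with hU
    · rw [← card_pl3]; exact h z
    · simp
  refine (Finset.sum_le_sum fun y _ => h1 y).trans (le_of_eq ?_)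
  rw [Finset.sum_ite_mem, Finset.univ_inter, Finset.sum_const, nsmul_eq_mul]

open scoped Classical in
theorem card_satrows (U : Finset (V × V)) (d : ℝ) :
    ((univ.filter fun y => d ≤ ((rowOf U y).card : ℝ)).card : ℝ) * d ≤ U.card := by
  have h : (∑ v, ((rowOf U v).card : ℝ)) = U.card := by exact_mod_cast card_rows U
  rw [← h]
  calc ((univ.filter fun y => d ≤ ((rowOf U y).card : ℝ)).card : ℝ) * d
      = ∑ y ∈ univ.filter (fun y => d ≤ ((rowOf U y).card : ℝ)), d := by
        rw [Finset.sum_const, nsmul_eq_mul]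
    _ ≤ ∑ y ∈ univ.filter (fun y => d ≤ ((rowOf U y).card : ℝ)), ((rowOf U y).card : ℝ) :=
        Finset.sum_le_sum fun y hy => (Finset.mem_filter.1 hy).2
    _ ≤ ∑ y, ((rowOf U y).card : ℝ) :=
        Finset.sum_le_sum_of_subset_of_nonneg (Finset.filter_subset _ _)
          (fun _ _ _ => Nat.cast_nonneg _)

open scoped Classical in
theorem card_satcols (U : Finset (V × V)) (d : ℝ) :
    ((univ.filter fun y => d ≤ ((colOf U y).card : ℝ)).card : ℝ) * d ≤ U.card := by
  have h : (∑ v, ((colOf U v).card : ℝ)) = U.card := by exact_mod_cast card_cols U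
  rw [← h]
  calc ((univ.filter fun y => d ≤ ((colOf U y).card : ℝ)).card : ℝ) * d
      = ∑ y ∈ univ.filter (fun y => d ≤ ((colOf U y).card : ℝ)), d := by
        rw [Finset.sum_const, nsmul_eq_mul]
    _ ≤ ∑ y ∈ univ.filter (fun y => d ≤ ((colOf U y).card : ℝ)), ((colOf U y).card : ℝ) :=
        Finset.sum_le_sum fun y hy => (Finset.mem_filter.1 hy).2
    _ ≤ ∑ y, ((colOf U y).card : ℝ) :=
        Finset.sum_le_sum_of_subset_of_nonneg (Finset.filter_subset _ _)
          (fun _ _ _ => Nat.cast_nonneg _)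

theorem R3_large (M : Finset (V × V × V)) (gam kap lam rho D n : ℝ) (hn : n = Fintype.card V)
    (hn1 : 0 < n) (hD : 0 < D) (hkap : 0 < kap) (hlam : 0 ≤ lam) (hrho0 : 0 < rho)
    (hrho : rho * (128 * kap) = gam) (hlamD : lam ≤ D / 2) (hDl : D * lam ≤ 4 * kap)
    (hM : gam * n ^ 3 ≤ M.card)
    (hl1 : ∀ y z, ((l1 M y z).card : ℝ) ≤ lam * n) (hl2 : ∀ v z, ((l2 M v z).card : ℝ) ≤ lam * n)
    (hl3 : ∀ v y, ((l3 M v y).card : ℝ) ≤ lam * n)
    (hp1 : ∀ v, ((sl M v).card : ℝ) ≤ kap * n ^ 2)
    (hp2 : ∀ y, ((pl2 M y).card : ℝ) ≤ kap * n ^ 2)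
    (hp3 : ∀ z, ((pl3 M z).card : ℝ) ≤ kap * n ^ 2) (r : List V) :
    rho * n ≤ ((R3 M (D * n / 2) (4 * D * rho * n ^ 2) (gam * n ^ 2 / 2) (4 * D * rho * n / 2)
      (rho * n) r).card : ℝ) := by
  classical
  have hd : lam * n ≤ D * n / 2 := by nlinarith
  have hd0 : 0 < D * n / 2 := by positivity
  have hrow := U3_row M (D * n / 2) (4 * D * rho * n ^ 2) hd0.le
    (fun v y => (hl3 v y).trans hd) r
  have hcol := U3_col M (D * n / 2) (4 * D * rho * n ^ 2) hd0.le
    (fun v y => (hl2 v y).trans hd) r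
  unfold R3
  split_ifs with h
  · set U := U3 M (D * n / 2) (4 * D * rho * n ^ 2) r with hU
    set d := D * n / 2 with hdd
    set SR := univ.filter fun y => d ≤ ((rowOf U y).card : ℝ) with hSR
    set SC := univ.filter fun y => d ≤ ((colOf U y).card : ℝ) with hSC
    set R := univ.filter fun v => gam * n ^ 2 / 2 ≤ ((sl M v \ (U ∪ Sat U d)).card : ℝ) with hR
    have a1 := sumA M U (lam * n) hl1
    have a2 := sumB M SR (kap * n ^ 2) hp2
    have a3 := sumC M SC (kap * n ^ 2) hp3
    have b1 := card_satrows U d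
    have b2 := card_satcols U d
    -- pointwise
    have c1 : ∀ v, ((sl M v).card : ℝ) ≤ ((sl M v \ (U ∪ Sat U d)).card : ℝ) +
        (((sl M v).filter fun q => q ∈ U).card : ℝ) +
        (((sl M v).filter fun q => q.1 ∈ SR).card : ℝ) +
        (((sl M v).filter fun q => q.2 ∈ SC).card : ℝ) := by
      intro v
      have hsub : sl M v ⊆ (((sl M v \ (U ∪ Sat U d)) ∪ ((sl M v).filter fun q => q ∈ U)) ∪
          ((sl M v).filter fun q => q.1 ∈ SR)) ∪ ((sl M v).filter fun q => q.2 ∈ SC) := by
        intro q hq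
        simp only [mem_union, mem_sdiff, mem_filter, hq, true_and, Sat, mem_univ, hSR, hSC]
        tauto
      have h1 := Finset.card_le_card hsub
      have h2 := Finset.card_union_le (((sl M v \ (U ∪ Sat U d)) ∪
        ((sl M v).filter fun q => q ∈ U)) ∪ ((sl M v).filter fun q => q.1 ∈ SR))
        ((sl M v).filter fun q => q.2 ∈ SC)
      have h3 := Finset.card_union_le ((sl M v \ (U ∪ Sat U d)) ∪
        ((sl M v).filter fun q => q ∈ U)) ((sl M v).filter fun q => q.1 ∈ SR)
      have h4 := Finset.card_union_le (sl M v \ (U ∪ Sat U d)) ((sl M v).filter fun q => q ∈ U)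
      have h5 : (sl M v).card ≤ (sl M v \ (U ∪ Sat U d)).card +
        ((sl M v).filter fun q => q ∈ U).card + ((sl M v).filter fun q => q.1 ∈ SR).card +
        ((sl M v).filter fun q => q.2 ∈ SC).card := by omega
      exact_mod_cast h5
    have c2 : (M.card : ℝ) = ∑ v, ((sl M v).card : ℝ) := by
      rw [card_M]
      refine Finset.sum_congr rfl fun v _ => ?_
      have := card_sl_filter M v (fun _ => True)
      simp only [if_true, Finset.filter_true] at this
      exact this.symm
    have c3 : ∀ v, ((sl M v \ (U ∪ Sat U d)).card : ℝ) ≤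
        gam * n ^ 2 / 2 + (if v ∈ R then kap * n ^ 2 else 0) := by
      intro v
      have hg0 : 0 ≤ gam * n ^ 2 / 2 := by rw [← hrho]; positivity
      split_ifs with hv
      · have h7 : ((sl M v \ (U ∪ Sat U d)).card : ℝ) ≤ (sl M v).card := by
          exact_mod_cast Finset.card_le_card Finset.sdiff_subset
        have := hp1 v
        linarith
      · have h7 : ¬ (gam * n ^ 2 / 2 ≤ ((sl M v \ (U ∪ Sat U d)).card : ℝ)) := fun hc =>
          hv (Finset.mem_filter.2 ⟨mem_univ _, hc⟩)
        linarith [not_le.1 h7]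
    have c4 : ∑ v, ((sl M v \ (U ∪ Sat U d)).card : ℝ) ≤
        n * (gam * n ^ 2 / 2) + R.card * (kap * n ^ 2) := by
      calc ∑ v, ((sl M v \ (U ∪ Sat U d)).card : ℝ)
          ≤ ∑ v, (gam * n ^ 2 / 2 + (if v ∈ R then kap * n ^ 2 else 0)) :=
            Finset.sum_le_sum fun v _ => c3 v
        _ = n * (gam * n ^ 2 / 2) + R.card * (kap * n ^ 2) := by
            rw [Finset.sum_add_distrib, Finset.sum_const, nsmul_eq_mul, Finset.card_univ, ← hn]
            congr 1
            rw [Finset.sum_ite_mem, Finset.univ_inter, Finset.sum_const, nsmul_eq_mul]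
    have c5 : (M.card : ℝ) ≤ (n * (gam * n ^ 2 / 2) + R.card * (kap * n ^ 2)) +
        U.card * (lam * n) + SR.card * (kap * n ^ 2) + SC.card * (kap * n ^ 2) := by
      rw [c2]
      have := Finset.sum_le_sum (s := univ) fun v _ => c1 v
      simp only [Finset.sum_add_distrib] at this
      linarith
    -- the sizes
    have hUc : (U.card : ℝ) ≤ 4 * D * rho * n ^ 2 := h.le
    have d1 : U.card * (lam * n) ≤ gam * n ^ 3 / 8 := by
      have h1 : (U.card : ℝ) * (lam * n) ≤ (4 * D * rho * n ^ 2) * (lam * n) :=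
        mul_le_mul_of_nonneg_right hUc (by positivity)
      have h2 : (4 * D * rho * n ^ 2) * (lam * n) = 4 * rho * n ^ 3 * (D * lam) := by ring
      have h3 : 4 * rho * n ^ 3 * (D * lam) ≤ 4 * rho * n ^ 3 * (4 * kap) :=
        mul_le_mul_of_nonneg_left hDl (by positivity)
      rw [← hrho]; nlinarith
    have e1 : (SR.card : ℝ) ≤ 8 * rho * n := by
      have h1 : (SR.card : ℝ) * d ≤ (8 * rho * n) * d := by
        calc (SR.card : ℝ) * d ≤ U.card := b1
          _ ≤ 4 * D * rho * n ^ 2 := hUc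
          _ = (8 * rho * n) * d := by rw [hdd]; ring
      exact le_of_mul_le_mul_right h1 hd0
    have e2 : (SC.card : ℝ) ≤ 8 * rho * n := by
      have h1 : (SC.card : ℝ) * d ≤ (8 * rho * n) * d := by
        calc (SC.card : ℝ) * d ≤ U.card := b2
          _ ≤ 4 * D * rho * n ^ 2 := hUc
          _ = (8 * rho * n) * d := by rw [hdd]; ring
      exact le_of_mul_le_mul_right h1 hd0
    have d2 : (SR.card : ℝ) * (kap * n ^ 2) ≤ gam * n ^ 3 / 16 := by
      have := mul_le_mul_of_nonneg_right e1 (by positivity : 0 ≤ kap * n ^ 2)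
      rw [← hrho]; nlinarith
    have d3 : (SC.card : ℝ) * (kap * n ^ 2) ≤ gam * n ^ 3 / 16 := by
      have := mul_le_mul_of_nonneg_right e2 (by positivity : 0 ≤ kap * n ^ 2)
      rw [← hrho]; nlinarith
    have d4 : gam * n ^ 3 / 4 ≤ R.card * (kap * n ^ 2) := by nlinarith
    have d5 : (rho * n) * (kap * n ^ 2) ≤ R.card * (kap * n ^ 2) := by
      refine le_trans ?_ d4
      rw [← hrho]
      have : 0 ≤ rho * kap * n ^ 3 := by positivity
      nlinarith
    exact le_of_mul_le_mul_right d5 (by positivity)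
  · refine R2_large (U3 M (D * n / 2) (4 * D * rho * n ^ 2) r) (4 * D * rho) D rho n hn hD (by ring)
      (not_lt.1 h) (fun v => ?_) (fun v => ?_) hn1 _
    · have := hrow v; linarith
    · have := hcol v; linarith

theorem kl3 {τ : ℕ} [Nonempty V] (M : Finset (V × V × V)) (gam kap lam rho D n : ℝ)
    (hn : n = Fintype.card V)
    (hD : 0 < D) (hkap : 0 < kap) (hlam : 0 ≤ lam) (hrho0 : 0 < rho) (hrho1 : rho ≤ 1)
    (hrho : rho * (128 * kap) = gam) (hlamD : lam ≤ D / 2) (hDl : D * lam ≤ 4 * kap)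
    (hM : gam * n ^ 3 ≤ M.card)
    (hl1 : ∀ y z, ((l1 M y z).card : ℝ) ≤ lam * n) (hl2 : ∀ v z, ((l2 M v z).card : ℝ) ≤ lam * n)
    (hl3 : ∀ v y, ((l3 M v y).card : ℝ) ≤ lam * n)
    (hp1 : ∀ v, ((sl M v).card : ℝ) ≤ kap * n ^ 2)
    (hp2 : ∀ y, ((pl2 M y).card : ℝ) ≤ kap * n ^ 2)
    (hp3 : ∀ z, ((pl3 M z).card : ℝ) ≤ kap * n ^ 2) (hrn : 2 ≤ rho * n)
    (a b : ℕ) (ha : D ≤ 16 * kap * a) (hb : 1 ≤ 2 * D * b) (hmτ : a + b ≤ τ) (hτ : 1 ≤ τ) :
    cnt (fun g : Fin τ → V × V => ¬ Kills3 g M) ≤
      ((a + b : ℕ) + 1) * (2 * τ) ^ (a + b) *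
        Real.exp (-((τ - (a + b) : ℕ) : ℝ) * (rho ^ 2 / 2)) * (n ^ 2) ^ τ := by
  classical
  have hn1 : 0 < n := by rw [hn]; exact_mod_cast Fintype.card_pos
  have hgam0 : 0 < gam := by rw [← hrho]; positivity
  have h := pick (τ := τ) (R3 M (D * n / 2) (4 * D * rho * n ^ 2) (gam * n ^ 2 / 2)
    (4 * D * rho * n / 2) (rho * n)) (a + b) rho hrho0.le hrho1 (hn ▸ hrn)
    (fun r _ _ => by
      rw [← hn]
      exact R3_large M gam kap lam rho D n hn hn1 hD hkap hlam hrho0 hrho hlamD hDl hM hl1 hl2 hl3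
        hp1 hp2 hp3 r) hmτ hτ
  have h2 : cnt (fun g : Fin τ → V × V => ¬ Kills3 g M) ≤
      cnt (fun g : Fin τ → V × V => BadPick (R3 M (D * n / 2) (4 * D * rho * n ^ 2)
        (gam * n ^ 2 / 2) (4 * D * rho * n / 2) (rho * n)) (a + b) g) := by
    refine cnt_mono fun g hg hbad => hg ?_
    intro N hN
    obtain ⟨r, hr1, hr2, hr3⟩ := hbad N hN
    match r, hr1, hr2, hr3 with
    | v :: r, hr1, hr2, hr3 =>
      have hlen : r.length = a + b := by simpa using hr2
      have hk1 : 0 < gam * n ^ 2 / 2 := by positivity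
      have haq : 4 * D * rho * n ^ 2 ≤ a * (gam * n ^ 2 / 2) := by
        have : 4 * rho * n ^ 2 * D ≤ 4 * rho * n ^ 2 * (16 * kap * a) :=
          mul_le_mul_of_nonneg_left ha (by positivity)
        rw [← hrho]; nlinarith
      have hW := W3_len M (D * n / 2) (4 * D * rho * n ^ 2) (gam * n ^ 2 / 2)
        (4 * D * rho * n / 2) (rho * n) hk1 a haq r hr1.1
      have hb1 : 1 ≤ b := by
        by_contra hb0
        have : b = 0 := by omega
        rw [this] at hb; simp at hb; linarith
      have hbig : ¬ ((U3 M (D * n / 2) (4 * D * rho * n ^ 2) r).card : ℝ) <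
          4 * D * rho * n ^ 2 := by
        intro hc
        have := (U3_small M (D * n / 2) (4 * D * rho * n ^ 2) (gam * n ^ 2 / 2)
          (4 * D * rho * n / 2) (rho * n) r hr1.1 hc).1
        rw [this] at hW
        simp at hW
        omega
      have hL := W3_legal M (D * n / 2) (4 * D * rho * n ^ 2) (gam * n ^ 2 / 2)
        (4 * D * rho * n / 2) (rho * n) r hr1.1
      have hv := hr1.2
      unfold R3 at hv
      rw [if_neg hbig] at hv
      obtain ⟨s, hs1, hs2⟩ := R2_end (U3 M (D * n / 2) (4 * D * rho * n ^ 2) r)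
        (4 * D * rho * n / 2) (rho * n) b (by
          have : rho * n * 1 ≤ rho * n * (2 * D * b) :=
            mul_le_mul_of_nonneg_left hb (by positivity)
          nlinarith) (by positivity) v (W3 M (D * n / 2) (4 * D * rho * n ^ 2) r) ⟨hL, hv⟩
          (by omega)
      obtain ⟨w, hw1, hw2⟩ := U3_mem M (D * n / 2) (4 * D * rho * n ^ 2) r (s, v) hs2
      refine ⟨(w, s, v), hw2, hr3 w (List.mem_cons_of_mem _ hw1),
        hr3 s (List.mem_cons_of_mem _ (W3_mem M _ _ r s hs1)), hr3 v (List.mem_cons_self ..)⟩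
  refine h2.trans (h.trans (le_of_eq ?_))
  rw [← hn]

end Pool.KCol
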