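import Pool.Agent.Work.MP_3e81b4_h44.Pick

set_option autoImplicit false

/-! # MP_3e81b4_pr: killing lemmas KL1, KL2 (helper44) -/

namespace Pool.KCol

open Finset

variable {V : Type} [Fintype V] [DecidableEq V]

/-- every transversal of `g` meets `R` -/
def Kills1 {τ : ℕ} (g : Fin τ → V × V) (R : Finset V) : Prop :=
  ∀ N : Finset V, Transv g N → ∃ a ∈ R, a ∈ N

/-- every transversal of `g` contains both coordinates of a pair of `B` -/
def Kills2 {τ : ℕ} (g : Fin τ → V × V) (B : Finset (V × V)) : Prop :=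
  ∀ N : Finset V, Transv g N → ∃ b ∈ B, b.1 ∈ N ∧ b.2 ∈ N

theorem kl1 {τ : ℕ} [Nonempty V] (R : Finset V) (lam : ℝ) (h0 : 0 ≤ lam) (h1 : lam ≤ 1)
    (hn : 2 ≤ lam * Fintype.card V) (hR : lam * Fintype.card V ≤ R.card) (hτ : 1 ≤ τ) :
    cnt (fun g : Fin τ → V × V => ¬ Kills1 g R) ≤
      Real.exp (-(τ : ℝ) * (lam ^ 2 / 2)) * ((Fintype.card V : ℝ) ^ 2) ^ τ := by
  have h := pick (τ := τ) (fun _ => R) 0 lam h0 h1 hn (fun _ _ _ => hR) (Nat.zero_le _) hτ
  have h2 : cnt (fun g : Fin τ → V × V => ¬ Kills1 g R) ≤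
      cnt (fun g : Fin τ → V × V => BadPick (fun _ => R) 0 g) := by
    refine cnt_mono fun g hg hbad => hg ?_
    intro N hN
    obtain ⟨r, hr1, hr2, hr3⟩ := hbad N hN
    match r, hr1, hr2, hr3 with
    | [v], hr1, _, hr3 => exact ⟨v, hr1.2, hr3 v (by simp)⟩
  refine h2.trans (h.trans (le_of_eq ?_))
  simp

/-- row of `B` -/
def rowOf (B : Finset (V × V)) (v : V) : Finset V := univ.filter fun z => (v, z) ∈ B

/-- column of `B` -/
def colOf (B : Finset (V × V)) (z : V) : Finset V := univ.filter fun v => (v, z) ∈ B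

theorem card_rows (B : Finset (V × V)) : ∑ v, (rowOf B v).card = B.card := by
  rw [Finset.card_eq_sum_card_fiberwise (f := Prod.fst) (t := univ) (fun _ _ => mem_univ _)]
  refine Finset.sum_congr rfl fun v _ => ?_
  refine Finset.card_bij' (fun z _ => (v, z)) (fun p _ => p.2) ?_ ?_ ?_ ?_
  · intro z hz
    simp only [rowOf, mem_filter, mem_univ, true_and] at hz
    exact Finset.mem_filter.2 ⟨hz, rfl⟩
  · intro p hp
    have hp' := Finset.mem_filter.1 hp
    simp only [rowOf, mem_filter, mem_univ, true_and]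
    rw [← hp'.2]; exact hp'.1
  · intro z _; rfl
  · intro p hp
    have hp' := Finset.mem_filter.1 hp
    exact Prod.ext hp'.2.symm rfl

theorem card_cols (B : Finset (V × V)) : ∑ z, (colOf B z).card = B.card := by
  rw [Finset.card_eq_sum_card_fiberwise (f := Prod.snd) (t := univ) (fun _ _ => mem_univ _)]
  refine Finset.sum_congr rfl fun v _ => ?_
  refine Finset.card_bij' (fun z _ => (z, v)) (fun p _ => p.1) ?_ ?_ ?_ ?_
  · intro z hz
    simp only [colOf, mem_filter, mem_univ, true_and] at hz
    exact Finset.mem_filter.2 ⟨hz, rfl⟩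
  · intro p hp
    have hp' := Finset.mem_filter.1 hp
    simp only [colOf, mem_filter, mem_univ, true_and]
    rw [← hp'.2]; exact hp'.1
  · intro z _; rfl
  · intro p hp
    have hp' := Finset.mem_filter.1 hp
    exact Prod.ext rfl hp'.2.symm

theorem sum_row_inter (B : Finset (V × V)) (U : Finset V) :
    ∑ v, (rowOf B v ∩ U).card = ∑ z ∈ U, (colOf B z).card := by
  have h1 : ∀ v, (rowOf B v ∩ U).card = ∑ z ∈ U, if (v, z) ∈ B then 1 else 0 := by
    intro v
    rw [← Finset.card_filter]
    congr 1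
    ext z
    simp only [rowOf, mem_inter, mem_filter, mem_univ, true_and]
    exact and_comm
  have h2 : ∀ z, (colOf B z).card = ∑ v, if (v, z) ∈ B then 1 else 0 := by
    intro z
    rw [← Finset.card_filter]
    rfl
  simp only [h1, h2]
  exact Finset.sum_comm

/-- union of the rows of the picks -/
def U2 (B : Finset (V × V)) (r : List V) : Finset V := univ.filter fun z => ∃ v ∈ r, (v, z) ∈ B

open scoped Classical in
/-- the strategy of KL2 -/
noncomputable def R2 (B : Finset (V × V)) (k q : ℝ) (r : List V) : Finset V :=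
  if ((U2 B r).card : ℝ) < q then univ.filter fun v => k ≤ ((rowOf B v \ U2 B r).card : ℝ)
  else U2 B r

theorem U2_cons (B : Finset (V × V)) (v : V) (r : List V) :
    U2 B (v :: r) = rowOf B v ∪ U2 B r := by
  ext z
  simp only [U2, rowOf, mem_filter, mem_univ, true_and, mem_union, List.mem_cons]
  constructor
  · rintro ⟨w, hw | hw, h⟩
    · left; rw [← hw]; exact h
    · right; exact ⟨w, hw, h⟩
  · rintro (h | ⟨w, hw, h⟩)
    · exact ⟨v, Or.inl rfl, h⟩
    · exact ⟨w, Or.inr hw, h⟩

theorem R2_large (B : Finset (V × V)) (kap lam rho n : ℝ) (hn : n = Fintype.card V)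
    (hlam : 0 < lam) (hrho : rho * (4 * lam) = kap) (hB : kap * n ^ 2 ≤ B.card)
    (hrow : ∀ v, ((rowOf B v).card : ℝ) ≤ lam * n) (hcol : ∀ z, ((colOf B z).card : ℝ) ≤ lam * n)
    (hn1 : 0 < n) (r : List V) : rho * n ≤ ((R2 B (kap * n / 2) (rho * n) r).card : ℝ) := by
  classical
  unfold R2
  split_ifs with h
  · set U := U2 B r with hU
    have h1 : (∑ v, ((rowOf B v ∩ U).card : ℝ)) ≤ U.card * (lam * n) := by
      have e := sum_row_inter B U
      have e' : (∑ v, ((rowOf B v ∩ U).card : ℝ)) = ∑ z ∈ U, ((colOf B z).card : ℝ) := by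
        exact_mod_cast e
      rw [e']
      calc ∑ z ∈ U, ((colOf B z).card : ℝ) ≤ ∑ z ∈ U, lam * n :=
            Finset.sum_le_sum fun z _ => hcol z
        _ = U.card * (lam * n) := by rw [Finset.sum_const, nsmul_eq_mul]
    have h2 : (∑ v, ((rowOf B v).card : ℝ)) = B.card := by exact_mod_cast card_rows B
    have h3 : ∀ v, ((rowOf B v).card : ℝ) = ((rowOf B v \ U).card : ℝ) + ((rowOf B v ∩ U).card : ℝ) := by
      intro v
      have := Finset.card_sdiff_add_card_inter (rowOf B v) U
      exact_mod_cast this.symm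
    have h4 : (∑ v, ((rowOf B v \ U).card : ℝ)) = B.card - ∑ v, ((rowOf B v ∩ U).card : ℝ) := by
      rw [← h2, ← Finset.sum_sub_distrib]
      exact Finset.sum_congr rfl fun v _ => by rw [h3 v]; ring
    set R := univ.filter fun v => kap * n / 2 ≤ ((rowOf B v \ U).card : ℝ) with hR
    have h5 : (∑ v, ((rowOf B v \ U).card : ℝ)) ≤ n * (kap * n / 2) + R.card * (lam * n) := by
      have h6 : ∀ v, ((rowOf B v \ U).card : ℝ) ≤ kap * n / 2 + (if v ∈ R then lam * n else 0) := by
        intro v
        split_ifs with hv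
        · have h7 : ((rowOf B v \ U).card : ℝ) ≤ (rowOf B v).card := by
            exact_mod_cast Finset.card_le_card Finset.sdiff_subset
          have h8 := hrow v
          have h9 : 0 ≤ kap * n / 2 := by
            have h10 : 0 ≤ kap := by
              by_contra hk
              push Not at hk
              have : rho < 0 := by
                by_contra hr
                push Not at hr
                nlinarith [mul_nonneg hr (by linarith : (0:ℝ) ≤ 4 * lam)]
              have h11 : (0:ℝ) ≤ U.card := Nat.cast_nonneg _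
              nlinarith
            positivity
          linarith
        · have h7 : ¬ (kap * n / 2 ≤ ((rowOf B v \ U).card : ℝ)) := fun hc =>
            hv (Finset.mem_filter.2 ⟨mem_univ _, hc⟩)
          linarith [not_le.1 h7]
      calc (∑ v, ((rowOf B v \ U).card : ℝ))
          ≤ ∑ v, (kap * n / 2 + (if v ∈ R then lam * n else 0)) := Finset.sum_le_sum fun v _ => h6 v
        _ = n * (kap * n / 2) + R.card * (lam * n) := by
            rw [Finset.sum_add_distrib, Finset.sum_const, nsmul_eq_mul, Finset.card_univ, ← hn]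
            congr 1
            rw [Finset.sum_ite_mem, Finset.univ_inter, Finset.sum_const, nsmul_eq_mul]
    have h6 : U.card * (lam * n) ≤ (rho * n) * (lam * n) :=
      mul_le_mul_of_nonneg_right h.le (by positivity)
    have h7 : (rho * n) * (lam * n) ≤ R.card * (lam * n) := by
      have : (rho * n) * (lam * n) = kap * n ^ 2 / 4 := by rw [← hrho]; ring
      nlinarith
    exact le_of_mul_le_mul_right h7 (by positivity)
  · exact not_lt.1 h

theorem U2_large (B : Finset (V × V)) (k q : ℝ) (r : List V) (hr : Legal (R2 B k q) r) :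
    q ≤ ((U2 B r).card : ℝ) ∨ (r.length : ℝ) * k ≤ ((U2 B r).card : ℝ) := by
  classical
  induction r with
  | nil => right; simp
  | cons v r ih =>
    have hmono : ((U2 B r).card : ℝ) ≤ ((U2 B (v :: r)).card : ℝ) := by
      rw [U2_cons]
      exact_mod_cast Finset.card_le_card Finset.subset_union_right
    rcases ih hr.1 with h | h
    · left; exact h.trans hmono
    · by_cases hc : ((U2 B r).card : ℝ) < q
      · right
        have hv := hr.2
        unfold R2 at hv
        rw [if_pos hc] at hv
        have hv' := (Finset.mem_filter.1 hv).2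
        have e : ((U2 B (v :: r)).card : ℝ) = ((rowOf B v \ U2 B r).card : ℝ) + (U2 B r).card := by
          rw [U2_cons, ← Finset.sdiff_union_self_eq_union, Finset.card_union_of_disjoint
            Finset.sdiff_disjoint]
          push_cast; ring
        rw [e]
        push_cast [List.length_cons]
        linarith
      · left; exact (not_lt.1 hc).trans hmono

/-- end of the strategy of KL2 -/
theorem R2_end (B : Finset (V × V)) (k q : ℝ) (m : ℕ) (hm : q ≤ m * k) (hk : 0 ≤ k) (v : V)
    (r : List V) (hr : Legal (R2 B k q) (v :: r)) (hl : m ≤ r.length) :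
    ∃ s ∈ r, (s, v) ∈ B := by
  classical
  have hq : q ≤ ((U2 B r).card : ℝ) := by
    rcases U2_large B k q r hr.1 with h | h
    · exact h
    · have h1 : (m : ℝ) * k ≤ r.length * k :=
        mul_le_mul_of_nonneg_right (by exact_mod_cast hl) hk
      linarith
  have hv := hr.2
  unfold R2 at hv
  rw [if_neg (not_lt.2 hq)] at hv
  exact (Finset.mem_filter.1 hv).2

theorem kl2 {τ : ℕ} [Nonempty V] (B : Finset (V × V)) (kap lam rho n : ℝ)
    (hn : n = Fintype.card V)
    (hlam : 0 < lam) (hrho : rho * (4 * lam) = kap) (hB : kap * n ^ 2 ≤ B.card)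
    (hrow : ∀ v, ((rowOf B v).card : ℝ) ≤ lam * n) (hcol : ∀ z, ((colOf B z).card : ℝ) ≤ lam * n)
    (hr1 : rho ≤ 1) (hrn : 2 ≤ rho * n) (m : ℕ) (hm : 1 ≤ 2 * lam * m) (hmτ : m ≤ τ)
    (hτ : 1 ≤ τ) :
    cnt (fun g : Fin τ → V × V => ¬ Kills2 g B) ≤
      (m + 1) * (2 * τ) ^ m * Real.exp (-((τ - m : ℕ) : ℝ) * (rho ^ 2 / 2)) * (n ^ 2) ^ τ := by
  have hn1 : 0 < n := by rw [hn]; exact_mod_cast Fintype.card_pos
  have hrho0 : 0 < rho := by
    by_contra hc
    push Not at hc
    nlinarith
  have hkap0 : 0 < kap := by rw [← hrho]; positivity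
  have h := pick (τ := τ) (R2 B (kap * n / 2) (rho * n)) m rho hrho0.le hr1 (hn ▸ hrn)
    (fun r _ _ => by
      rw [← hn]
      exact R2_large B kap lam rho n hn hlam hrho hB hrow hcol hn1 r) hmτ hτ
  have h2 : cnt (fun g : Fin τ → V × V => ¬ Kills2 g B) ≤
      cnt (fun g : Fin τ → V × V => BadPick (R2 B (kap * n / 2) (rho * n)) m g) := by
    refine cnt_mono fun g hg hbad => hg ?_
    intro N hN
    obtain ⟨r, hr1, hr2, hr3⟩ := hbad N hN
    match r, hr1, hr2, hr3 with
    | v :: r, hr1, hr2, hr3 =>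
      obtain ⟨s, hs1, hs2⟩ := R2_end B (kap * n / 2) (rho * n) m (by
        have : rho * n * 1 ≤ rho * n * (2 * lam * m) :=
          mul_le_mul_of_nonneg_left hm (by positivity)
        rw [← hrho]; nlinarith) (by positivity) v r hr1 (by simp at hr2; omega)
      exact ⟨(s, v), hs2, hr3 s (List.mem_cons_of_mem _ hs1), hr3 v (List.mem_cons_self ..)⟩
  refine h2.trans (h.trans (le_of_eq ?_))
  rw [← hn]

end Pool.KCol
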