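import Mathlib

set_option autoImplicit false

/-! # MP_3e81b4_pr: picking lemma (counting form), helper44 -/

namespace Pool.KCol

open Finset

open scoped Classical in
/-- the number of elements with a property, as a real number -/
noncomputable def cnt {Ω : Type} [Fintype Ω] (P : Ω → Prop) : ℝ :=
  ((univ.filter P).card : ℝ)

theorem cnt_eq {Ω : Type} [Fintype Ω] (P : Ω → Prop) [DecidablePred P] :
    cnt P = ((univ.filter P).card : ℝ) := by
  unfold cnt
  have h : (@Finset.filter Ω P (fun a => Classical.propDecidable (P a)) univ) =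
      univ.filter P := by
    ext x
    simp only [Finset.mem_filter]
  rw [h]

theorem cnt_nonneg {Ω : Type} [Fintype Ω] (P : Ω → Prop) : 0 ≤ cnt P := Nat.cast_nonneg _

theorem cnt_mono {Ω : Type} [Fintype Ω] {P Q : Ω → Prop} (h : ∀ x, P x → Q x) :
    cnt P ≤ cnt Q := by
  classical
  unfold cnt
  exact_mod_cast Finset.card_le_card (fun x hx => by
    rw [Finset.mem_filter] at hx ⊢
    exact ⟨hx.1, h x hx.2⟩)

theorem cnt_le_sum {Ω ι : Type} [Fintype Ω] (s : Finset ι) {P : Ω → Prop} (Q : ι → Ω → Prop)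
    (h : ∀ x, P x → ∃ i ∈ s, Q i x) : cnt P ≤ ∑ i ∈ s, cnt (Q i) := by
  classical
  unfold cnt
  have h1 : (univ.filter P) ⊆ s.biUnion fun i => univ.filter (Q i) := by
    intro x hx
    obtain ⟨i, hi, hq⟩ := h x (Finset.mem_filter.1 hx).2
    exact Finset.mem_biUnion.2 ⟨i, hi, Finset.mem_filter.2 ⟨mem_univ _, hq⟩⟩
  have h2 := (Finset.card_le_card h1).trans Finset.card_biUnion_le
  exact_mod_cast h2

/-- conditional counting: the allowed set depends only on the coordinates in `J` -/
theorem card_cond_le {ι E : Type} [Fintype ι] [DecidableEq ι] [Fintype E] [DecidableEq E]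
    [Nonempty E] (J : Finset ι) (Q : (ι → E) → Prop) (A : (ι → E) → Finset E)
    (hA : ∀ w w' : ι → E, (∀ i ∈ J, w i = w' i) → A w = A w')
    (hQ : ∀ w w' : ι → E, (∀ i ∈ J, w i = w' i) → (Q w ↔ Q w'))
    (a : ℝ) (ha : 0 ≤ a) (hcard : ∀ w, Q w → ((A w).card : ℝ) ≤ a) :
    cnt (fun w : ι → E => Q w ∧ ∀ i, i ∉ J → w i ∈ A w) ≤
      a ^ (Fintype.card ι - J.card) * (Fintype.card E : ℝ) ^ J.card := by
  classical
  rw [cnt_eq]
  let e := Equiv.piEquivPiSubtypeProd (fun i => i ∈ J) (fun _ : ι => E)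
  let e0 : E := Classical.arbitrary E
  -- extension of the coordinates in J
  let ext : ({x // x ∈ J} → E) → (ι → E) := fun u => e.symm (u, fun _ => e0)
  have hext : ∀ (u : {x // x ∈ J} → E) (i : ι) (hi : i ∈ J), ext u i = u ⟨i, hi⟩ := by
    intro u i hi
    change e.symm (u, fun _ => e0) i = _
    simp [e, Equiv.piEquivPiSubtypeProd, hi]
  have hw : ∀ (w : ι → E) (i : ι), i ∈ J → ext (e w).1 i = w i := by
    intro w i hi
    rw [hext _ i hi]
    rfl
  let S := univ.filter fun w : ι → E => Q w ∧ ∀ i, i ∉ J → w i ∈ A w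
  let T : Finset (({x // x ∈ J} → E) × ({x // ¬ x ∈ J} → E)) :=
    univ.filter fun p => Q (ext p.1) ∧ ∀ i, p.2 i ∈ A (ext p.1)
  have h1 : S.card ≤ T.card := by
    refine Finset.card_le_card_of_injOn e ?_ (e.injective.injOn)
    intro w hwS
    have hwS' := (Finset.mem_filter.1 hwS).2
    refine Finset.mem_coe.2 (Finset.mem_filter.2 ⟨mem_univ _, ?_, ?_⟩)
    · exact (hQ _ _ (fun i hi => hw w i hi)).2 hwS'.1
    · intro i
      rw [hA _ _ (fun i hi => hw w i hi)]
      exact hwS'.2 i.1 i.2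
  have h2 : (T.card : ℝ) ≤ a ^ (Fintype.card ι - J.card) * (Fintype.card E : ℝ) ^ J.card := by
    have h3 : T.card = ∑ u : ({x // x ∈ J} → E),
        (univ.filter fun v : ({x // ¬ x ∈ J} → E) =>
          Q (ext u) ∧ ∀ i, v i ∈ A (ext u)).card := by
      rw [Finset.card_eq_sum_card_fiberwise (f := Prod.fst) (t := univ) (fun _ _ => mem_univ _)]
      refine Finset.sum_congr rfl fun u _ => ?_
      refine Finset.card_bij' (fun p _ => p.2) (fun v _ => (u, v)) ?_ ?_ ?_ ?_
      · intro p hp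
        simp only [T, mem_filter, mem_univ, true_and] at hp ⊢
        rw [← hp.2]; exact hp.1
      · intro v hv
        simp only [T, mem_filter, mem_univ, true_and] at hv ⊢
        exact ⟨hv, trivial⟩
      · intro p hp
        simp only [T, mem_filter, mem_univ, true_and] at hp
        exact Prod.ext hp.2.symm rfl
      · intro v _; rfl
    rw [h3]
    push_cast
    have h4 : ∀ u : ({x // x ∈ J} → E),
        ((univ.filter fun v : ({x // ¬ x ∈ J} → E) =>
          Q (ext u) ∧ ∀ i, v i ∈ A (ext u)).card : ℝ) ≤ a ^ (Fintype.card ι - J.card) := by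
      intro u
      by_cases hq : Q (ext u)
      · have h5 : (univ.filter fun v : ({x // ¬ x ∈ J} → E) =>
            Q (ext u) ∧ ∀ i, v i ∈ A (ext u)) = Fintype.piFinset (fun _ => A (ext u)) := by
          ext v
          simp [hq]
        rw [h5, Fintype.card_piFinset, Finset.prod_const, Finset.card_univ]
        have h6 : Fintype.card {x // ¬ x ∈ J} = Fintype.card ι - J.card := by
          rw [Fintype.card_subtype_compl]
          simp
        rw [h6]
        push_cast
        exact pow_le_pow_left₀ (by positivity) (hcard _ hq) _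
      · have h5 : (univ.filter fun v : ({x // ¬ x ∈ J} → E) =>
            Q (ext u) ∧ ∀ i, v i ∈ A (ext u)) = ∅ := by
          ext v
          simp [hq]
        rw [h5]
        simpa using pow_nonneg ha _
    calc ∑ u : ({x // x ∈ J} → E), ((univ.filter fun v : ({x // ¬ x ∈ J} → E) =>
          Q (ext u) ∧ ∀ i, v i ∈ A (ext u)).card : ℝ)
        ≤ ∑ u : ({x // x ∈ J} → E), a ^ (Fintype.card ι - J.card) :=
          Finset.sum_le_sum fun u _ => h4 u
      _ = a ^ (Fintype.card ι - J.card) * (Fintype.card E : ℝ) ^ J.card := by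
          rw [Finset.sum_const, nsmul_eq_mul, Finset.card_univ, Fintype.card_fun]
          simp [mul_comm]
  exact (Nat.cast_le.2 h1).trans h2

variable {V : Type} [Fintype V] [DecidableEq V]

/-- `N` is a transversal of the non-loop edges of `g` -/
def Transv {τ : ℕ} (g : Fin τ → V × V) (N : Finset V) : Prop :=
  ∀ i, (g i).1 ≠ (g i).2 → (g i).1 ∈ N ∨ (g i).2 ∈ N

/-- legal sequences of a strategy (head = newest pick) -/
def Legal (R : List V → Finset V) : List V → Prop
  | [] => True
  | v :: r => Legal R r ∧ v ∈ R r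

/-- the non-loop edges inside `R` -/
def inner (R : Finset V) : Finset (V × V) := R.offDiag

/-- the word read off at positions `p` -/
def word {τ : ℕ} (g : Fin τ → V × V) (p : List (Fin τ × Bool)) : List V :=
  p.map fun q => if q.2 then (g q.1).1 else (g q.1).2

omit [Fintype V] [DecidableEq V] in
theorem word_congr {τ : ℕ} (g g' : Fin τ → V × V) (p : List (Fin τ × Bool))
    (h : ∀ q ∈ p, g q.1 = g' q.1) : word g p = word g' p := by
  unfold word
  refine List.map_congr_left fun q hq => ?_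
  rw [h q hq]

omit [Fintype V] in
/-- if no position sequence fails then every transversal contains a long legal sequence -/
theorem exists_legal {τ m : ℕ} (R : List V → Finset V) (g : Fin τ → V × V)
    (hg : ∀ i ≤ m, ∀ p : List (Fin τ × Bool), p.length = i → Legal R (word g p) →
      ∃ j, g j ∈ inner (R (word g p)))
    (N : Finset V) (hN : Transv g N) :
    ∀ i ≤ m + 1, ∃ p : List (Fin τ × Bool), p.length = i ∧ Legal R (word g p) ∧
      ∀ v ∈ word g p, v ∈ N := by
  intro i
  induction i with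
  | zero => intro _; exact ⟨[], rfl, trivial, by simp [word]⟩
  | succ i ih =>
    intro hi
    obtain ⟨p, hp1, hp2, hp3⟩ := ih (by omega)
    obtain ⟨j, hj⟩ := hg i (by omega) p hp1 hp2
    have hj' := Finset.mem_offDiag.1 hj
    rcases hN j hj'.2.2 with h | h
    · refine ⟨(j, true) :: p, by simp [hp1], ?_, ?_⟩
      · exact ⟨hp2, hj'.1⟩
      · intro v hv
        simp only [word, List.map_cons, List.mem_cons] at hv
        rcases hv with hv | hv
        · rw [hv]; simpa using h
        · exact hp3 v hv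
    · refine ⟨(j, false) :: p, by simp [hp1], ?_, ?_⟩
      · exact ⟨hp2, hj'.2.1⟩
      · intro v hv
        simp only [word, List.map_cons, List.mem_cons] at hv
        rcases hv with hv | hv
        · rw [hv]; simpa using h
        · exact hp3 v hv

/-- positions of a word -/
def posSet {τ : ℕ} (p : List (Fin τ × Bool)) : Finset (Fin τ) := (p.map Prod.fst).toFinset

theorem posSet_card {τ : ℕ} (p : List (Fin τ × Bool)) : (posSet p).card ≤ p.length := by
  unfold posSet
  refine (List.toFinset_card_le _).trans ?_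
  simp

/-- lists of length `i` of positions, as a finset -/
def posLists (τ i : ℕ) : Finset (List (Fin τ × Bool)) :=
  (univ : Finset (Fin i → Fin τ × Bool)).image List.ofFn

theorem mem_posLists {τ i : ℕ} (p : List (Fin τ × Bool)) : p ∈ posLists τ i ↔ p.length = i := by
  unfold posLists
  constructor
  · intro h
    obtain ⟨v, _, rfl⟩ := Finset.mem_image.1 h
    simp
  · intro h
    subst h
    exact Finset.mem_image.2 ⟨fun j => p.get j, mem_univ _, List.ofFn_get p⟩

theorem card_posLists (τ i : ℕ) : (posLists τ i).card ≤ (2 * τ) ^ i := by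
  unfold posLists
  refine Finset.card_image_le.trans ?_
  rw [Finset.card_univ, Fintype.card_fun, Fintype.card_prod, Fintype.card_fin, Fintype.card_bool,
    Fintype.card_fin, mul_comm]

/-- `g` is bad for the strategy `R`: some transversal has no legal sequence of length `m + 1` -/
def BadPick (R : List V → Finset V) (m : ℕ) {τ : ℕ} (g : Fin τ → V × V) : Prop :=
  ¬ ∀ N : Finset V, Transv g N → ∃ r : List V, Legal R r ∧ r.length = m + 1 ∧ ∀ v ∈ r, v ∈ N

theorem one_pos_fail {τ : ℕ} [Nonempty V] (R : List V → Finset V) (m : ℕ) (ρ : ℝ) (hρ : 0 ≤ ρ)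
    (hρ1 : ρ ≤ 1)
    (hn : 2 ≤ ρ * Fintype.card V)
    (hR : ∀ r, Legal R r → r.length ≤ m → ρ * Fintype.card V ≤ (R r).card)
    (i : ℕ) (hi : i ≤ m) (hmτ : m ≤ τ) (p : List (Fin τ × Bool)) (hp : p.length = i) :
    cnt (fun g : Fin τ → V × V => Legal R (word g p) ∧
      ∀ j, j ∉ posSet p → g j ∈ (inner (R (word g p)))ᶜ) ≤
      (1 - ρ ^ 2 / 2) ^ (τ - m) * ((Fintype.card V : ℝ) ^ 2) ^ τ := by
  classical
  set n : ℝ := (Fintype.card V : ℝ) with hnn
  have hn0 : 0 ≤ n := Nat.cast_nonneg _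
  have hJ : (posSet p).card ≤ τ := (posSet_card p).trans (by omega)
  have hcongr : ∀ w w' : Fin τ → V × V, (∀ j ∈ posSet p, w j = w' j) → word w p = word w' p := by
    intro w w' h
    refine word_congr w w' p fun q hq => h q.1 ?_
    unfold posSet
    rw [List.mem_toFinset]
    exact List.mem_map.2 ⟨q, hq, rfl⟩
  have hc0 : 0 ≤ 1 - ρ ^ 2 / 2 := by nlinarith
  have hc1 : 1 - ρ ^ 2 / 2 ≤ 1 := by nlinarith [sq_nonneg ρ]
  have key := card_cond_le (ι := Fin τ) (E := V × V) (posSet p)
    (fun g => Legal R (word g p)) (fun g => (inner (R (word g p)))ᶜ)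
    (fun w w' h => by rw [hcongr w w' h]) (fun w w' h => by rw [hcongr w w' h])
    ((1 - ρ ^ 2 / 2) * n ^ 2) (by positivity) (by
      intro w hw
      have h1 := hR _ hw (by simp [word]; omega)
      have h2 : ((inner (R (word w p)))ᶜ.card : ℝ) = n ^ 2 -
          ((R (word w p)).card * (R (word w p)).card - (R (word w p)).card : ℝ) := by
        rw [Finset.card_compl, inner, Finset.offDiag_card, Fintype.card_prod]
        rw [Nat.cast_sub, Nat.cast_sub]
        · push_cast; ring
        · exact Nat.le_mul_self _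
        · refine (Nat.sub_le _ _).trans ?_
          exact Nat.mul_le_mul (Finset.card_le_univ _) (Finset.card_le_univ _)
      rw [h2]
      set k : ℝ := ((R (word w p)).card : ℝ)
      have h3 : ρ * n ≤ k := h1
      nlinarith [mul_nonneg hρ hn0, mul_le_mul h3 h3 (mul_nonneg hρ hn0) (by linarith : (0:ℝ) ≤ k)])
  refine key.trans ?_
  rw [Fintype.card_fin, Fintype.card_prod]
  push_cast
  rw [mul_pow, ← hnn]
  have e1 : (1 - ρ ^ 2 / 2) ^ (τ - (posSet p).card) ≤ (1 - ρ ^ 2 / 2) ^ (τ - m) :=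
    pow_le_pow_of_le_one hc0 hc1 (by have := posSet_card p; omega)
  have e2 : (n ^ 2) ^ (τ - (posSet p).card) * (n * n) ^ (posSet p).card = (n ^ 2) ^ τ := by
    rw [← sq, ← pow_add]; congr 1; omega
  calc (1 - ρ ^ 2 / 2) ^ (τ - (posSet p).card) * (n ^ 2) ^ (τ - (posSet p).card) *
        (n * n) ^ (posSet p).card
      = (1 - ρ ^ 2 / 2) ^ (τ - (posSet p).card) * (n ^ 2) ^ τ := by rw [mul_assoc, e2]
    _ ≤ (1 - ρ ^ 2 / 2) ^ (τ - m) * (n ^ 2) ^ τ := by
        exact mul_le_mul_of_nonneg_right e1 (by positivity)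

/-- the picking lemma -/
theorem pick {τ : ℕ} [Nonempty V] (R : List V → Finset V) (m : ℕ) (ρ : ℝ) (hρ : 0 ≤ ρ)
    (hρ1 : ρ ≤ 1) (hn : 2 ≤ ρ * Fintype.card V)
    (hR : ∀ r, Legal R r → r.length ≤ m → ρ * Fintype.card V ≤ (R r).card) (hmτ : m ≤ τ)
    (hτ : 1 ≤ τ) :
    cnt (fun g : Fin τ → V × V => BadPick R m g) ≤
      (m + 1) * (2 * τ) ^ m * Real.exp (-((τ - m : ℕ) : ℝ) * (ρ ^ 2 / 2)) *
        ((Fintype.card V : ℝ) ^ 2) ^ τ := by
  classical
  have hsub : ∀ g : Fin τ → V × V, BadPick R m g →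
      ∃ i ∈ Finset.range (m + 1), ∃ p ∈ posLists τ i, (Legal R (word g p) ∧
          ∀ j, j ∉ posSet p → g j ∈ (inner (R (word g p)))ᶜ) := by
    intro g hg'
    by_contra hcon
    apply hg'
    intro N hN
    have hall : ∀ i ≤ m, ∀ p : List (Fin τ × Bool), p.length = i → Legal R (word g p) →
        ∃ j, g j ∈ inner (R (word g p)) := by
      intro i hi p hp hL
      by_contra hno
      apply hcon
      refine ⟨i, Finset.mem_range.2 (by omega), p, (mem_posLists p).2 hp, hL, fun j _ => ?_⟩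
      exact Finset.mem_compl.2 (fun hj => hno ⟨j, hj⟩)
    obtain ⟨p, hp1, hp2, hp3⟩ := exists_legal R g hall N hN (m + 1) le_rfl
    exact ⟨word g p, hp2, by simp [word, hp1], hp3⟩
  have hexp : (1 - ρ ^ 2 / 2) ^ (τ - m) ≤ Real.exp (-((τ - m : ℕ) : ℝ) * (ρ ^ 2 / 2)) := by
    have h1 : 1 - ρ ^ 2 / 2 ≤ Real.exp (-(ρ ^ 2 / 2)) := by
      have := Real.add_one_le_exp (-(ρ ^ 2 / 2)); linarith
    have h0 : 0 ≤ 1 - ρ ^ 2 / 2 := by nlinarith
    calc (1 - ρ ^ 2 / 2) ^ (τ - m) ≤ Real.exp (-(ρ ^ 2 / 2)) ^ (τ - m) :=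
          pow_le_pow_left₀ h0 h1 _
      _ = Real.exp (-((τ - m : ℕ) : ℝ) * (ρ ^ 2 / 2)) := by
          rw [← Real.exp_nat_mul]; congr 1; ring
  have hb0 : 0 ≤ Real.exp (-((τ - m : ℕ) : ℝ) * (ρ ^ 2 / 2)) * ((Fintype.card V : ℝ) ^ 2) ^ τ := by
    positivity
  have hone : (1:ℝ) ≤ 2 * τ := by
    have : (1:ℝ) ≤ τ := by exact_mod_cast hτ
    linarith
  calc cnt (fun g : Fin τ → V × V => BadPick R m g)
      ≤ ∑ i ∈ Finset.range (m + 1), cnt (fun g : Fin τ → V × V =>
          ∃ p ∈ posLists τ i, (Legal R (word g p) ∧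
          ∀ j, j ∉ posSet p → g j ∈ (inner (R (word g p)))ᶜ)) := cnt_le_sum _ _ hsub
    _ ≤ ∑ i ∈ Finset.range (m + 1), ∑ p ∈ posLists τ i,
        cnt (fun g : Fin τ → V × V => Legal R (word g p) ∧
          ∀ j, j ∉ posSet p → g j ∈ (inner (R (word g p)))ᶜ) :=
        Finset.sum_le_sum fun i _ => cnt_le_sum _ _ (fun x hx => hx)
    _ ≤ ∑ i ∈ Finset.range (m + 1), ∑ p ∈ posLists τ i,
        (Real.exp (-((τ - m : ℕ) : ℝ) * (ρ ^ 2 / 2)) * ((Fintype.card V : ℝ) ^ 2) ^ τ) := by
        refine Finset.sum_le_sum fun i hi => Finset.sum_le_sum fun p hp => ?_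
        have hi' : i ≤ m := by have := Finset.mem_range.1 hi; omega
        refine (one_pos_fail R m ρ hρ hρ1 hn hR i hi' hmτ p ((mem_posLists p).1 hp)).trans ?_
        exact mul_le_mul_of_nonneg_right hexp (by positivity)
    _ ≤ ∑ i ∈ Finset.range (m + 1), (2 * (τ : ℝ)) ^ m *
        (Real.exp (-((τ - m : ℕ) : ℝ) * (ρ ^ 2 / 2)) * ((Fintype.card V : ℝ) ^ 2) ^ τ) := by
        refine Finset.sum_le_sum fun i hi => ?_
        rw [Finset.sum_const, nsmul_eq_mul]
        refine mul_le_mul_of_nonneg_right ?_ hb0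
        have h1 : ((posLists τ i).card : ℝ) ≤ (2 * (τ : ℝ)) ^ i := by
          have := card_posLists τ i
          calc ((posLists τ i).card : ℝ) ≤ (((2 * τ) ^ i : ℕ) : ℝ) := by exact_mod_cast this
            _ = (2 * (τ : ℝ)) ^ i := by push_cast; ring
        refine h1.trans (pow_le_pow_right₀ hone ?_)
        have := Finset.mem_range.1 hi; omega
    _ = (m + 1) * (2 * τ) ^ m * Real.exp (-((τ - m : ℕ) : ℝ) * (ρ ^ 2 / 2)) *
        ((Fintype.card V : ℝ) ^ 2) ^ τ := by
        rw [Finset.sum_const, Finset.card_range, nsmul_eq_mul]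
        push_cast
        ring

end Pool.KCol
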